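import Pool.Agent.Y928.TD.Approx
import Pool.Agent.Y928.SW.Win
import Pool.Agent.Y928.JL.Fam
import Pool.Agent.Y760.RT.Ser

/-!
# Numbers `1 - δ` with `δ` about `2 ^ (-n)` and a Roth type bound: linear complexity of the digits
-/

set_option autoImplicit false

namespace Pool.Agent.Y928.TD

open Finset Filter Topology
open Pool.Agent.H831R3.LC (dig)
open Pool.Agent.W47.JL (err err_ge)
open Pool.Agent.Y928.JL.Fam (digit Recurrence complexity attained)
open Pool.Agent.TH507.ZS Pool.Agent.Y760.RT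

/-- a digit in the initial block -/
lemma digit_init {b : ℕ} (hb : 2 ≤ b) {x δ : ℝ} (hx : x = 1 - δ) (hδ : 0 < δ) {i : ℕ} (hi : 1 ≤ i)
    (h : δ * (b : ℝ) ^ i ≤ 1) : digit b x i = b - 1 := by
  have hfl : ⌊x * (b : ℝ) ^ i⌋ = (b : ℤ) ^ i - 1 := by
    rw [Int.floor_eq_iff]
    have hbi : 0 < (b : ℝ) ^ i := by positivity
    push_cast
    rw [hx]
    constructor
    · nlinarith
    · nlinarith [mul_pos hδ hbi]
  unfold digit
  rw [hfl]
  obtain ⟨j, rfl⟩ : ∃ j, i = j + 1 := ⟨i - 1, by omega⟩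
  have e : (b : ℤ) ^ (j + 1) - 1 = (b - 1) + b * ((b : ℤ) ^ j - 1) := by ring
  rw [e, Int.add_mul_emod_self_left]
  exact Int.emod_eq_of_lt (by omega) (by omega)

/-- the digit after the initial block -/
lemma digit_next {b : ℕ} {x δ : ℝ} (hx : x = 1 - δ) {i : ℕ} (hi : 1 ≤ i)
    (h1 : 1 < δ * (b : ℝ) ^ i) (h2 : δ * (b : ℝ) ^ i ≤ b) : digit b x i ≠ b - 1 := by
  obtain ⟨f, hf⟩ : ∃ f : ℤ, f = ⌊x * (b : ℝ) ^ i⌋ := ⟨_, rfl⟩
  have hle : (f : ℝ) ≤ x * (b : ℝ) ^ i := by rw [hf]; exact Int.floor_le _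
  have hlt : x * (b : ℝ) ^ i < f + 1 := by rw [hf]; exact Int.lt_floor_add_one _
  have hx' : x * (b : ℝ) ^ i = (b : ℝ) ^ i - δ * (b : ℝ) ^ i := by rw [hx]; ring
  have hup : f < (b : ℤ) ^ i - 1 := by
    have : (f : ℝ) < (((b : ℤ) ^ i - 1 : ℤ) : ℝ) := by push_cast; linarith
    exact_mod_cast this
  have hlo : (b : ℤ) ^ i - b ≤ f := by
    have h3 : (((b : ℤ) ^ i - b : ℤ) : ℝ) < ((f + 1 : ℤ) : ℝ) := by push_cast; linarith
    have h4 : (b : ℤ) ^ i - b < f + 1 := by exact_mod_cast h3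
    omega
  unfold digit
  rw [← hf]
  obtain ⟨j, rfl⟩ : ∃ j, i = j + 1 := ⟨i - 1, by omega⟩
  have e0 : (b : ℤ) ^ (j + 1) = b * (b : ℤ) ^ j := by ring
  have e : f = (f - ((b : ℤ) ^ (j + 1) - b)) + b * ((b : ℤ) ^ j - 1) := by rw [e0]; ring
  rw [e, Int.add_mul_emod_self_left, Int.emod_eq_of_lt (by omega) (by omega)]
  omega

/-- a constant block followed by a different term -/
lemma block {s : ℕ → ℤ} {c : ℕ → ℚ} {L m r : ℕ} {v : ℤ} (hv : v ≠ 0)
    (h1 : ∀ i, 1 ≤ i → i ≤ r → s i = v) (h2 : s (r + 1) ≠ v) (hL : r + 1 ≤ L)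
    (hrec : Recurrence s c L m) : r ≤ m := by
  by_contra hcon
  push Not at hcon
  have hvQ : (v : ℚ) ≠ 0 := by exact_mod_cast hv
  have e1 := hrec 1 le_rfl (by omega)
  rw [h1 (1 + m) (by omega) (by omega)] at e1
  have e2 : ∑ j ∈ range m, c j * (s (1 + j) : ℚ) = (∑ j ∈ range m, c j) * v := by
    rw [sum_mul]
    refine sum_congr rfl fun j hj => ?_
    rw [mem_range] at hj
    rw [h1 (1 + j) (by omega) (by omega)]
  rw [e2] at e1
  have e3 : ∑ j ∈ range m, c j = 1 := by
    have : (1 : ℚ) * v = (∑ j ∈ range m, c j) * v := by rw [one_mul]; exact e1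
    exact (mul_right_cancel₀ hvQ this).symm
  have e4 := hrec (r + 1 - m) (by omega) (by omega)
  rw [show r + 1 - m + m = r + 1 by omega] at e4
  have e5 : ∑ j ∈ range m, c j * (s (r + 1 - m + j) : ℚ) = (∑ j ∈ range m, c j) * v := by
    rw [sum_mul]
    refine sum_congr rfl fun j hj => ?_
    rw [mem_range] at hj
    rw [h1 (r + 1 - m + j) (by omega) (by omega)]
  rw [e5, e3, one_mul] at e4
  exact h2 (by exact_mod_cast e4)

/-- the length of the initial block -/
lemma exists_r {b : ℕ} (hb : 2 ≤ b) {δ : ℝ} (hδ : 0 < δ) (hδ1 : δ ≤ 1) :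
    ∃ r : ℕ, δ * (b : ℝ) ^ r ≤ 1 ∧ 1 < δ * (b : ℝ) ^ (r + 1) := by
  have hbR : (1 : ℝ) < b := by exact_mod_cast (by omega : 1 < b)
  have hex : ∃ r : ℕ, 1 < δ * (b : ℝ) ^ (r + 1) := by
    obtain ⟨n, hn⟩ := pow_unbounded_of_one_lt (1 / δ) hbR
    refine ⟨n, ?_⟩
    rw [div_lt_iff₀ hδ] at hn
    have : (b : ℝ) ^ n ≤ (b : ℝ) ^ (n + 1) := pow_le_pow_right₀ hbR.le (by omega)
    nlinarith
  classical
  refine ⟨Nat.find hex, ?_, Nat.find_spec hex⟩
  rcases Nat.eq_zero_or_pos (Nat.find hex) with h0 | h0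
  · rw [h0, pow_zero, mul_one]
    exact hδ1
  · have := Nat.find_min hex (m := Nat.find hex - 1) (by omega)
    push Not at this
    rwa [show Nat.find hex - 1 + 1 = Nat.find hex by omega] at this

/-- **the general theorem** -/
theorem gen (x : ℕ → ℝ) (n1 : ℕ)
    (hδ : ∀ n, n1 ≤ n → 1 / 2 ^ n ≤ 1 - x n ∧ 1 - x n ≤ 4 / 2 ^ n)
    (hR : ∀ C B : ℝ, 1 < B → ∃ n0 : ℕ, ∀ n : ℕ, n0 ≤ n → ∀ p q : ℤ, 1 ≤ q → (q : ℝ) ≤ C ^ n →
      (p : ℝ) / q ≠ 1 → 1 / ((q : ℝ) ^ 2 * B ^ n) < |x n - p / q|)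
    (ε C : ℝ) (hε : 0 < ε) :
    ∃ n0 : ℕ, ∀ n : ℕ, n0 ≤ n → ∀ b : ℕ, 2 ≤ b → ∀ L : ℕ,
      (L * Real.log b ≤ (1 - ε) * (n * Real.log 2) → complexity b (x n) L ≤ 1) ∧
      (n0 ≤ L → (1 + ε) * (n * Real.log 2) ≤ L * Real.log b → L * Real.log b ≤ C * n →
        (1 / 2 - ε) * L ≤ complexity b (x n) L) := by
  obtain ⟨K, hK0, hK⟩ := Pool.Agent.Y928.SW.err_small (ε / 60) (by positivity)
  have hl2 : 0 < Real.log 2 := Real.log_pos (by norm_num)
  have hl21 : Real.log 2 < 1 := by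
    have := Real.log_two_lt_d9
    linarith
  obtain ⟨n2, hn2⟩ := hR (Real.exp C) (Real.exp (ε * Real.log 2)) (by
    rw [← Real.exp_zero]
    exact Real.exp_lt_exp.2 (by positivity))
  refine ⟨n1 + n2 + 4 + ⌈4 / ε⌉₊ + ⌈120 * K / ε⌉₊, fun n hn b hb L => ?_⟩
  have hb0 : (0 : ℝ) < b := by exact_mod_cast (by omega : 0 < b)
  have hb1 : (1 : ℝ) ≤ b := by exact_mod_cast (by omega : 1 ≤ b)
  have hlb : 0 < Real.log b := Real.log_pos (by exact_mod_cast (by omega : 1 < b))
  obtain ⟨hδ1, hδ2⟩ := hδ n (by omega)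
  obtain ⟨δ, hδe⟩ : ∃ δ : ℝ, δ = 1 - x n := ⟨_, rfl⟩
  rw [← hδe] at hδ1 hδ2
  have hxδ : x n = 1 - δ := by rw [hδe]; ring
  have h2n : (0 : ℝ) < 2 ^ n := by positivity
  have hδ0 : 0 < δ := lt_of_lt_of_le (by positivity) hδ1
  have hnR : 4 / ε ≤ n := by
    have h1 := Nat.le_ceil (4 / ε)
    have h2 : ((⌈4 / ε⌉₊ : ℕ) : ℝ) ≤ n := by exact_mod_cast (by omega : ⌈4 / ε⌉₊ ≤ n)
    linarith
  rw [div_le_iff₀ hε] at hnR
  have hn4 : (4 : ℝ) ≤ n := by exact_mod_cast (by omega : 4 ≤ n)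
  have hlog2n : Real.log (2 ^ n) = n * Real.log 2 := Real.log_pow _ _
  have hδ11 : δ ≤ 1 := by
    refine hδ2.trans ?_
    rw [div_le_one h2n]
    calc (4 : ℝ) = 2 ^ 2 := by norm_num
      _ ≤ 2 ^ n := pow_le_pow_right₀ (by norm_num) (by omega)
  constructor
  · intro hLs
    -- all the digits are `b - 1`
    have hall : ∀ i, 1 ≤ i → i ≤ L → digit b (x n) i = b - 1 := by
      intro i h1 h2
      refine digit_init hb hxδ hδ0 h1 ?_
      have h3 : (b : ℝ) ^ i ≤ (b : ℝ) ^ L := pow_le_pow_right₀ hb1 h2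
      have h4 : (4 / 2 ^ n) * (b : ℝ) ^ L ≤ 1 := by
        rw [div_mul_eq_mul_div, div_le_one h2n]
        have h5 : Real.log (4 * (b : ℝ) ^ L) ≤ Real.log (2 ^ n) := by
          rw [Real.log_mul (by norm_num) (by positivity), Real.log_pow, hlog2n]
          have h6 : Real.log 4 = 2 * Real.log 2 := by
            rw [show (4 : ℝ) = 2 ^ 2 by norm_num, Real.log_pow]
            norm_num
          rw [h6]
          nlinarith
        exact (Real.log_le_log_iff (by positivity) h2n).1 h5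
      calc δ * (b : ℝ) ^ i ≤ (4 / 2 ^ n) * (b : ℝ) ^ L :=
            mul_le_mul hδ2 h3 (by positivity) (by positivity)
        _ ≤ 1 := h4
    refine Nat.sInf_le ⟨fun _ => 1, fun i h1 h2 => ?_⟩
    rw [Finset.sum_range_one, hall (i + 1) (by omega) h2, add_zero, hall i h1 (by omega), one_mul]
  · intro hLn hLlo hLup
    by_contra hcon
    push Not at hcon
    obtain ⟨m, hm⟩ : ∃ m, m = complexity b (x n) L := ⟨_, rfl⟩
    obtain ⟨c, hc⟩ := attained b (x n) L
    rw [← hm] at hcon hc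
    have hm0 : (0 : ℝ) ≤ m := Nat.cast_nonneg m
    have hL0 : (0 : ℝ) ≤ L := Nat.cast_nonneg L
    have hLK : 120 * K / ε ≤ L := by
      have h1 := Nat.le_ceil (120 * K / ε)
      have h2 : ((⌈120 * K / ε⌉₊ : ℕ) : ℝ) ≤ L := by exact_mod_cast (by omega : ⌈120 * K / ε⌉₊ ≤ L)
      linarith
    rw [div_le_iff₀ hε] at hLK
    have hLε : 4 / ε ≤ L := by
      have h1 := Nat.le_ceil (4 / ε)
      have h2 : ((⌈4 / ε⌉₊ : ℕ) : ℝ) ≤ L := by exact_mod_cast (by omega : ⌈4 / ε⌉₊ ≤ L)
      linarith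
    rw [div_le_iff₀ hε] at hLε
    have hL4 : (4 : ℝ) ≤ L := by exact_mod_cast (by omega : 4 ≤ L)
    have hmL : (m : ℝ) ≤ L / 2 := by nlinarith
    obtain ⟨M, hM⟩ : ∃ M : ℝ, M = m + 15 * err m := ⟨_, rfl⟩
    have hMle : M ≤ (1 / 2 - 3 * ε / 4) * L := by
      have h1 := hK m
      rw [hM]
      nlinarith
    have hmM : (m : ℝ) ≤ M := by
      rw [hM]
      have := err_ge m
      linarith
    have hM0 : 0 ≤ M := hm0.trans hmM
    rcases approx1 (x n) b hb L m (fun i => digit b (x n) (i + 1)) (fun i _ => rfl) c (by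
        intro i hi
        have h1 := hc (i + 1) (by omega) (by omega)
        rw [show i + m + 1 = i + 1 + m by ring, h1]
        exact Finset.sum_congr rfl fun l _ => by rw [show i + l + 1 = i + 1 + l by ring]) with h1 | h1
    · rw [← hM] at h1
      nlinarith
    obtain ⟨q, hq1, p, hlq, hqp⟩ := h1
    rw [← hM] at hlq hqp
    have hqR : (1 : ℝ) ≤ q := by exact_mod_cast hq1
    have hq0 : (0 : ℝ) < q := by linarith
    by_cases hpq : (p : ℝ) / q = 1
    · -- the approximation `1`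
      have hpq' : (p : ℝ) = q := by rwa [div_eq_one_iff_eq hq0.ne'] at hpq
      have h2 : |(q : ℝ) * x n - p| = q * δ := by
        rw [hpq', hxδ, show (q : ℝ) * (1 - δ) - q = -(q * δ) by ring, abs_neg,
          abs_of_pos (by positivity)]
      rw [h2] at hqp
      have h3 : 1 / 2 ^ n ≤ Real.exp ((M - L) * Real.log b) := by
        refine le_trans ?_ hqp
        calc (1 : ℝ) / 2 ^ n ≤ δ := hδ1
          _ ≤ q * δ := le_mul_of_one_le_left hδ0.le hqR
      have h4 := Real.log_le_log (by positivity) h3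
      rw [Real.log_exp, one_div, Real.log_inv, hlog2n] at h4
      -- `(L - M) log b ≤ n log 2`
      have h5 : (1 / 2 + 3 * ε / 4) * L * Real.log b ≤ n * Real.log 2 := by
        have h6 : (1 / 2 + 3 * ε / 4) * L ≤ L - M := by linarith
        have h7 := mul_le_mul_of_nonneg_right h6 hlb.le
        linarith
      have h6 : L * Real.log b ≤ 2 * (n * Real.log 2) := by
        have : 0 ≤ ε * (L * Real.log b) := by positivity
        nlinarith
      obtain ⟨r, hr1, hr2⟩ := exists_r hb hδ0 hδ11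
      have hrn : r * Real.log b ≤ n * Real.log 2 := by
        have h7 : (1 / 2 ^ n) * (b : ℝ) ^ r ≤ 1 :=
          (mul_le_mul_of_nonneg_right hδ1 (by positivity)).trans hr1
        rw [one_div_mul_eq_div, div_le_one h2n] at h7
        have h8 := Real.log_le_log (by positivity) h7
        rwa [Real.log_pow, hlog2n] at h8
      have hrL : r + 1 ≤ L := by
        have h7 : (1 + ε) * (r * Real.log b) ≤ L * Real.log b := by
          have : (1 + ε) * (r * Real.log b) ≤ (1 + ε) * (n * Real.log 2) :=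
            mul_le_mul_of_nonneg_left hrn (by positivity)
          linarith
        have h8 : (1 + ε) * r ≤ L := by
          have h9 : ((1 + ε) * r) * Real.log b ≤ L * Real.log b := by linarith
          exact le_of_mul_le_mul_right h9 hlb
        have h9 : (r : ℝ) + 1 ≤ L := by
          by_contra hcon2
          push Not at hcon2
          have h10 : (r : ℝ) > L - 1 := by linarith
          have h11 : (1 + ε) * (L - 1) < L := by
            have : (1 + ε) * ((L : ℝ) - 1) < (1 + ε) * r := mul_lt_mul_of_pos_left h10 (by positivity)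
            linarith
          nlinarith
        exact_mod_cast h9
      have hrm : r ≤ m := by
        have hv : (b : ℤ) - 1 ≠ 0 := by omega
        refine block (s := digit b (x n)) hv (fun i h7 h8 => ?_) ?_ hrL hc
        · refine digit_init hb hxδ hδ0 h7 ?_
          refine le_trans ?_ hr1
          exact mul_le_mul_of_nonneg_left (pow_le_pow_right₀ hb1 h8) hδ0.le
        · refine digit_next hxδ (by omega) hr2 ?_
          rw [pow_succ, ← mul_assoc]
          calc δ * (b : ℝ) ^ r * b ≤ 1 * b := mul_le_mul_of_nonneg_right hr1 hb0.le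
            _ = b := one_mul _
      -- `r` is large
      have hrlow : (n - 2) * Real.log 2 ≤ (r + 1) * Real.log b := by
        have h7 : 1 < (4 / 2 ^ n) * (b : ℝ) ^ (r + 1) :=
          hr2.trans_le (mul_le_mul_of_nonneg_right hδ2 (by positivity))
        rw [div_mul_eq_mul_div, one_lt_div h2n] at h7
        have h8 := Real.log_le_log h2n h7.le
        rw [Real.log_mul (by norm_num) (by positivity), hlog2n, Real.log_pow] at h8
        have h9 : Real.log 4 = 2 * Real.log 2 := by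
          rw [show (4 : ℝ) = 2 ^ 2 by norm_num, Real.log_pow]
          norm_num
        rw [h9] at h8
        push_cast at h8
        linarith
      have hrmR : (r : ℝ) ≤ m := by exact_mod_cast hrm
      have h7 : (r + 1) * Real.log b ≤ ((1 / 2 - ε) * L + 1) * Real.log b :=
        mul_le_mul_of_nonneg_right (by linarith) hlb.le
      -- `(n - 2) log 2 ≤ (1/2 - ε) L log b + log b`
      have h8 : Real.log b ≤ ε / 2 * (n * Real.log 2) := by
        have h9 : (4 / ε) * Real.log b ≤ L * Real.log b :=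
          mul_le_mul_of_nonneg_right (by rw [div_le_iff₀ hε]; exact hLε) hlb.le
        have h10 : (4 / ε) * Real.log b ≤ 2 * (n * Real.log 2) := h9.trans h6
        have h11 := mul_le_mul_of_nonneg_left h10 (show 0 ≤ ε / 4 by positivity)
        have e : ε / 4 * (4 / ε * Real.log b) = Real.log b := by field_simp
        rw [e] at h11
        linarith
      have h12 : (1 / 2 - ε) * (L * Real.log b) ≤ n * Real.log 2 - ε * (L * Real.log b) := by
        nlinarith
      have h13 : ε * (n * Real.log 2) ≤ ε * (L * Real.log b) := by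
        apply mul_le_mul_of_nonneg_left _ hε.le
        have : 0 ≤ ε * (n * Real.log 2) := by positivity
        nlinarith
      nlinarith
    · -- a genuine approximation
      have hqC : ((q : ℤ) : ℝ) ≤ Real.exp C ^ n := by
        rw [← Real.exp_nat_mul]
        push_cast
        rw [← Real.log_le_iff_le_exp hq0]
        have h2 : M * Real.log b ≤ L * Real.log b := mul_le_mul_of_nonneg_right (by nlinarith) hlb.le
        linarith
      have h2 := hn2 n (by omega) p q (by exact_mod_cast hq1) hqC (by push_cast; exact hpq)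
      push_cast at h2
      have h3 : 1 / (q * Real.exp (ε * Real.log 2) ^ n) < Real.exp ((M - L) * Real.log b) := by
        refine lt_of_lt_of_le ?_ hqp
        have e1 : |(q : ℝ) * x n - p| = q * |x n - p / q| := by
          rw [← abs_of_pos hq0, ← abs_mul, abs_of_pos hq0]
          congr 1
          field_simp
        rw [e1]
        have h4 := mul_lt_mul_of_pos_left h2 hq0
        refine lt_of_le_of_lt (le_of_eq ?_) h4
        field_simp
      have h4 := Real.log_lt_log (by positivity) h3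
      rw [Real.log_exp, one_div, Real.log_inv, Real.log_mul (by positivity) (by positivity),
        Real.log_pow, Real.log_exp] at h4
      have h5 : 3 * ε / 2 * (L * Real.log b) < n * (ε * Real.log 2) := by
        have h6 : M * Real.log b ≤ (1 / 2 - 3 * ε / 4) * L * Real.log b :=
          mul_le_mul_of_nonneg_right hMle hlb.le
        nlinarith
      have h6 : ε * (n * Real.log 2) ≤ ε * (L * Real.log b) := by
        apply mul_le_mul_of_nonneg_left _ hε.le
        have : 0 ≤ ε * (n * Real.log 2) := by positivity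
        nlinarith
      have h7 : 0 ≤ ε * (L * Real.log b) := by positivity
      nlinarith

/-- the bounds for `1 - t n` -/
lemma t_bounds : ∃ n1 : ℕ, ∀ n, n1 ≤ n → 1 / 2 ^ n ≤ 1 - dser tQ n ∧ 1 - dser tQ n ≤ 4 / 2 ^ n := by
  obtain ⟨A, hA⟩ := tQ_pb
  obtain ⟨B, hB⟩ := tail_dser hA 2
  have h1 : tQ 1 = 1 := tQ_mult.1
  have h2 : tQ 2 = -2 := tQ_prime Nat.prime_two
  have hlim : ∀ᶠ n : ℕ in atTop, B ≤ (3 / 2 : ℝ) ^ n :=
    (tendsto_pow_atTop_atTop_of_one_lt (by norm_num)).eventually_ge_atTop B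
  rw [← eventually_atTop]
  filter_upwards [hB, hlim] with n h3 h4
  have e1 : Finset.Icc 1 2 = ({1, 2} : Finset ℕ) := by decide
  rw [e1, Finset.sum_pair (by norm_num), h1, h2] at h3
  have h2n : (0 : ℝ) < 2 ^ n := by positivity
  have h5 : B / ((2 : ℕ) + 1 : ℝ) ^ n ≤ 1 / 2 ^ n := by
    push_cast
    rw [show (2 : ℝ) + 1 = 3 by norm_num, div_le_div_iff₀ (by positivity) h2n]
    rw [div_pow, le_div_iff₀ h2n] at h4
    linarith
  have h6 := abs_le.1 (h3.trans h5)
  push_cast at h6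
  rw [one_pow, div_one] at h6
  have e2 : (-2 : ℝ) / 2 ^ n = -2 * (1 / 2 ^ n) := by ring
  have e3 : (4 : ℝ) / 2 ^ n = 4 * (1 / 2 ^ n) := by ring
  rw [e2] at h6
  rw [e3]
  constructor <;> linarith [h6.1, h6.2]

/-- the digits of `ζ(2n)/ζ(n)²` -/
theorem digits_t (ε C : ℝ) (hε : 0 < ε) :
    ∃ n0 : ℕ, ∀ n : ℕ, n0 ≤ n → ∀ b : ℕ, 2 ≤ b → ∀ L : ℕ,
      (L * Real.log b ≤ (1 - ε) * (n * Real.log 2) → complexity b (dser tQ n) L ≤ 1) ∧
      (n0 ≤ L → (1 + ε) * (n * Real.log 2) ≤ L * Real.log b → L * Real.log b ≤ C * n →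
        (1 / 2 - ε) * L ≤ complexity b (dser tQ n) L) := by
  obtain ⟨n1, hn1⟩ := t_bounds
  refine gen (fun n => dser tQ n) n1 hn1 (fun C B hB => ?_) ε C hε
  obtain ⟨A, hA⟩ := tQ_pb
  have h1 : tQ 1 = 1 := tQ_mult.1
  obtain ⟨n0, hn0⟩ := mainQ hA (fun h hh => by
    obtain ⟨k, h1, h2, h3, h4⟩ := exists_prime_coprime hh
    refine ⟨k, h1, h2, h3, ?_⟩
    rw [tQ_prime h4]
    norm_num) 1 isAlgebraic_one one_ne_zero C B hB
  refine ⟨n0, fun n hn p q hq hqC hpq => ?_⟩
  have h2 := hn0 n hn p q hq hqC (by rwa [h1, Rat.cast_one, mul_one])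
  rwa [one_mul] at h2

end Pool.Agent.Y928.TD
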