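import Pool.Agent.W47.JL.Single

/-!
# A recurrence of a word of digits gives a good rational approximation
-/

set_option autoImplicit false

namespace Pool.Agent.Y928.TD

open Finset Polynomial
open Pool.Agent.H831R3.LC (W dig dig_abs)
open Pool.Agent.W47.JL

/-- the approximation -/
theorem approx1 (x : ℝ) (b : ℕ) (hb : 2 ≤ b) (L m : ℕ)
    (s : ℕ → ℤ) (hdig : ∀ i < L, s i = dig x b (i + 1)) (c : ℕ → ℚ)
    (hc : ∀ i, i + m < L → (s (i + m) : ℚ) = ∑ l ∈ range m, c l * (s (i + l) : ℚ)) :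
    (L : ℝ) ≤ m + 15 * err m + 1 ∨ ∃ q : ℕ, 1 ≤ q ∧ ∃ p : ℤ,
      Real.log q ≤ (m + 15 * err m) * Real.log b ∧
      |(q : ℝ) * x - p| ≤ Real.exp ((m + 15 * err m - L) * Real.log b) := by
  obtain ⟨k0, K, hk0, hK, hpar⟩ := params m
  have hbR : (2 : ℝ) ≤ b := by exact_mod_cast hb
  have hb0 : (0 : ℝ) < b := by linarith
  have hlb0 : 0 < Real.log b := Real.log_pos (by linarith)
  have hpar1 : M1 b m k0 K ≤ m + 15 * err m := hpar b hbR
  have hM1 := M1_ge b m k0 K hb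
  have hm0 : (0 : ℝ) ≤ m := Nat.cast_nonneg m
  have hk00 : (0 : ℝ) ≤ k0 := Nat.cast_nonneg k0
  have hL0 : (0 : ℝ) ≤ L := Nat.cast_nonneg L
  by_cases hL : m + k0 ≤ L
  swap
  · left
    have : (L : ℝ) ≤ m + k0 := by exact_mod_cast (by omega : L ≤ m + k0)
    linarith
  by_cases hbig : (m + k0 + 1) * ((m + 1 + k0) * b) ^ K * b < b ^ (L - (m + k0))
  swap
  · left
    push Not at hbig
    have h1 : ((b : ℝ) ^ (L - (m + k0))) ≤
        ((m : ℝ) + k0 + 1) * (((m : ℝ) + 1 + k0) * b) ^ K * b := by exact_mod_cast hbig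
    have h2 := Real.log_le_log (by positivity) h1
    rw [Real.log_pow, Real.log_mul (by positivity) (by positivity)] at h2
    have h3 : ((L - (m + k0) : ℕ) : ℝ) = L - (m + k0) := by
      rw [Nat.cast_sub hL]; push_cast; ring
    rw [h3] at h2
    have h4 : (L : ℝ) - (m + k0) ≤
        Real.log (((m : ℝ) + k0 + 1) * (((m : ℝ) + 1 + k0) * b) ^ K) / Real.log b + 1 := by
      rw [← sub_le_iff_le_add, le_div_iff₀ hlb0]
      linarith
    have h5 : (L : ℝ) ≤ M1 b m k0 K + 1 := by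
      unfold M1
      linarith
    linarith
  right
  -- truncate
  obtain ⟨a, ha⟩ : ∃ a : Fin 1 → ℕ → ℤ, a = fun _ i => if i < L then s i else 0 := ⟨_, rfl⟩
  have ha1 : ∀ j i, i < L → a j i = s i := by
    intro j i hi
    rw [ha]; simp [hi]
  have ha2 : ∀ j i, |a j i| ≤ b := by
    intro j i
    by_cases hi : i < L
    · rw [ha1 j i hi, hdig i hi]; exact dig_abs _ b (by omega) _
    · rw [ha]; simp [hi]
  obtain ⟨t, ht0, htd, htH, htr⟩ := Pool.Agent.W928.JL.small 1 a b (by omega)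
    ha2 m k0 (L - (m + k0)) L K hk0 hK
    (by omega) c (fun j i hi => by
      rw [ha1 _ _ hi, hc i hi]
      refine Finset.sum_congr rfl fun l hl => ?_
      rw [mem_range] at hl
      rw [ha1 _ _ (by omega)])
  obtain ⟨t', htd', htH', htr', ht0'⟩ := Pool.Agent.W639.JL.desc 1 a b b
    (((m + 1 + k0) * b) ^ K) (m + k0) (L - (m + k0)) hb ha2 hbig t htd ht0 htH htr
  obtain ⟨p, hp⟩ : ∃ p : ℤ, |((t'.eval (b : ℤ) : ℤ) : ℝ) * (b : ℝ) ^ 0 * x - p| *
      (b : ℝ) ^ (L - (m + k0) - 0) ≤ ((m + k0 : ℕ) + 1) * (((m + 1 + k0) * b) ^ K : ℕ) :=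
    Pool.Agent.W45.JL.approx x b (((m + 1 + k0) * b) ^ K) (L - (m + k0)) (m + k0) 0 L
      (a 0) t' (by omega) htH' htd' (htr' 0) (fun i _ hi => by rw [ha1 0 i hi, hdig i hi])
      (by omega) (by omega)
  obtain ⟨q, hq⟩ : ∃ q : ℕ, q = (t'.eval (b : ℤ)).natAbs := ⟨_, rfl⟩
  have hq1 : 1 ≤ q := by rw [hq]; exact Int.natAbs_pos.2 ht0'
  have hqR : (q : ℝ) = |((t'.eval (b : ℤ) : ℤ) : ℝ)| := by
    rw [hq, Nat.cast_natAbs, Int.cast_abs]
  have hq1R : (1 : ℝ) ≤ q := by exact_mod_cast hq1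
  obtain ⟨X, hX⟩ : ∃ X : ℝ, X = ((m : ℝ) + k0 + 1) * (((m : ℝ) + 1 + k0) * b) ^ K := ⟨_, rfl⟩
  have hX0 : 0 < X := by rw [hX]; positivity
  have hXe : (((m + k0 : ℕ) : ℝ) + 1) * (((m + 1 + k0) * b) ^ K : ℕ) = X := by
    rw [hX]; push_cast; ring
  have hqle : (q : ℝ) ≤ X * (b : ℝ) ^ (m + k0) := by
    have h1 := eval_le t' (((m + 1 + k0) * b) ^ K) (m + k0) b (by omega) htH' htd'
    rw [hqR, ← hXe]
    exact_mod_cast h1
  have hXM : M1 b m k0 K * Real.log b = (m + k0) * Real.log b + Real.log X := by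
    rw [M1, ← hX]
    field_simp
  have hlogq : Real.log q ≤ M1 b m k0 K * Real.log b := by
    have h1 := Real.log_le_log (by linarith) hqle
    rw [Real.log_mul hX0.ne' (by positivity), Real.log_pow] at h1
    push_cast at h1
    rw [hXM]
    linarith
  have hMM : M1 b m k0 K * Real.log b ≤ (m + 15 * err m) * Real.log b :=
    mul_le_mul_of_nonneg_right hpar1 hlb0.le
  -- signs
  obtain ⟨p', hp'⟩ : ∃ p' : ℤ, |(q : ℝ) * x - p'| =
      |((t'.eval (b : ℤ) : ℤ) : ℝ) * (b : ℝ) ^ 0 * x - p| := by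
    rcases abs_cases ((t'.eval (b : ℤ) : ℤ) : ℝ) with ⟨h1, _⟩ | ⟨h1, _⟩
    · exact ⟨p, by rw [hqR, h1, pow_zero, mul_one]⟩
    · refine ⟨-p, ?_⟩
      rw [hqR, h1, ← abs_neg]
      congr 1
      push_cast
      ring
  refine ⟨q, hq1, p', hlogq.trans hMM, ?_⟩
  rw [hp']
  rw [hXe, Nat.sub_zero] at hp
  obtain ⟨w, hw⟩ : ∃ w : ℕ, L = m + k0 + w := ⟨L - (m + k0), by omega⟩
  rw [show L - (m + k0) = w by omega] at hp
  have h9 : (L : ℝ) = m + k0 + w := by rw [hw]; push_cast; ring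
  have h10 : |((t'.eval (b : ℤ) : ℤ) : ℝ) * (b : ℝ) ^ 0 * x - p| ≤ X / (b : ℝ) ^ w := by
    rw [le_div_iff₀ (by positivity)]
    exact hp
  refine h10.trans ?_
  have h11 : X / (b : ℝ) ^ w = Real.exp (Real.log X - w * Real.log b) := by
    rw [Real.exp_sub, Real.exp_log hX0, Real.exp_nat_mul, Real.exp_log hb0]
  rw [h11]
  apply Real.exp_le_exp.2
  rw [h9]
  nlinarith

end Pool.Agent.Y928.TD
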